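import Pool.Agent.helper4.QX.SpecP

set_option autoImplicit false

/-!
# Project QX (MP_07c750), row FEJ: the Fejer kernel
-/

open Polynomial
open Pool.Agent.QU Pool.Agent.RP

namespace Pool.Agent.QX

/-- the Fejer kernel -/
noncomputable def FEJ_F (m : ℕ) (θ : ℝ) : ℝ :=
  ((∑ k ∈ Finset.range m, Real.cos (k * θ)) ^ 2 + (∑ k ∈ Finset.range m, Real.sin (k * θ)) ^ 2) /
    (m : ℝ) ^ 2

theorem FEJ_double (m : ℕ) (θ : ℝ) : FEJ_F m θ =
    (∑ j ∈ Finset.range m, ∑ k ∈ Finset.range m, Real.cos (((j : ℤ) - (k : ℤ) : ℤ) * θ)) /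
      (m : ℝ) ^ 2 := by
  unfold FEJ_F
  congr 1
  rw [sq, sq, Finset.sum_mul_sum, Finset.sum_mul_sum, ← Finset.sum_add_distrib]
  refine Finset.sum_congr rfl fun j _ => ?_
  rw [← Finset.sum_add_distrib]
  refine Finset.sum_congr rfl fun k _ => ?_
  push_cast
  rw [sub_mul, Real.cos_sub]

theorem FEJ_nonneg (m : ℕ) (θ : ℝ) : 0 ≤ FEJ_F m θ := by
  unfold FEJ_F
  positivity

theorem FEJ_le (m : ℕ) (hm : 1 ≤ m) (θ : ℝ) : FEJ_F m θ ≤ 1 := by
  have hm' : (0 : ℝ) < m := by exact_mod_cast hm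
  rw [FEJ_double, div_le_one (by positivity)]
  calc (∑ j ∈ Finset.range m, ∑ k ∈ Finset.range m, Real.cos (((j : ℤ) - (k : ℤ) : ℤ) * θ))
      ≤ ∑ j ∈ Finset.range m, ∑ k ∈ Finset.range m, (1 : ℝ) :=
        Finset.sum_le_sum fun j _ => Finset.sum_le_sum fun k _ => Real.cos_le_one _
    _ = (m : ℝ) ^ 2 := by simp [sq]

theorem FEJ_zero (m : ℕ) (hm : 1 ≤ m) : FEJ_F m 0 = 1 := by
  have hm' : (m : ℝ) ≠ 0 := by
    have : 0 < m := hm
    exact_mod_cast this.ne'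
  unfold FEJ_F
  simp [hm']

theorem FEJ_tel (m : ℕ) (θ : ℝ) :
    2 * Real.sin (θ / 2) * (∑ k ∈ Finset.range m, Real.cos (k * θ)) =
      Real.sin ((m - 1 / 2) * θ) + Real.sin (θ / 2) ∧
    2 * Real.sin (θ / 2) * (∑ k ∈ Finset.range m, Real.sin (k * θ)) =
      Real.cos (θ / 2) - Real.cos ((m - 1 / 2) * θ) := by
  induction m with
  | zero =>
    have e1 : (((0 : ℕ) : ℝ) - 1 / 2) * θ = -(θ / 2) := by push_cast; ring
    rw [e1, Real.sin_neg, Real.cos_neg]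
    simp
  | succ m ih =>
    rw [Finset.sum_range_succ, Finset.sum_range_succ, mul_add, mul_add, ih.1, ih.2]
    have e1 : (((m + 1 : ℕ) : ℝ) - 1 / 2) * θ = m * θ + θ / 2 := by push_cast; ring
    have e2 : ((m : ℝ) - 1 / 2) * θ = m * θ - θ / 2 := by ring
    rw [e1, e2, Real.sin_add, Real.sin_sub, Real.cos_add, Real.cos_sub]
    constructor <;> ring

theorem FEJ_mul (m : ℕ) (hm : 1 ≤ m) (θ : ℝ) :
    FEJ_F m θ * Real.sin (θ / 2) ^ 2 * (m : ℝ) ^ 2 = Real.sin (m * θ / 2) ^ 2 := by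
  have hm' : (m : ℝ) ≠ 0 := by
    have : 0 < m := hm
    exact_mod_cast this.ne'
  obtain ⟨h1, h2⟩ := FEJ_tel m θ
  unfold FEJ_F
  set A := ∑ k ∈ Finset.range m, Real.cos (k * θ)
  set B := ∑ k ∈ Finset.range m, Real.sin (k * θ)
  set s := Real.sin (θ / 2)
  have e0 : (A ^ 2 + B ^ 2) / (m : ℝ) ^ 2 * s ^ 2 * (m : ℝ) ^ 2 =
      ((2 * s * A) ^ 2 + (2 * s * B) ^ 2) / 4 := by
    field_simp
    ring
  rw [e0, h1, h2]
  have e1 : ((m : ℝ) - 1 / 2) * θ = m * θ / 2 + (m * θ / 2 - θ / 2) := by ring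
  have e2 : θ / 2 = m * θ / 2 - (m * θ / 2 - θ / 2) := by ring
  have k1 : ∀ a c : ℝ, Real.sin (a + c) + Real.sin (a - c) = 2 * Real.sin a * Real.cos c := by
    intro a c
    rw [Real.sin_add, Real.sin_sub]
    ring
  have k2 : ∀ a c : ℝ, Real.cos (a - c) - Real.cos (a + c) = 2 * Real.sin a * Real.sin c := by
    intro a c
    rw [Real.cos_add, Real.cos_sub]
    ring
  have e3 : Real.sin (((m : ℝ) - 1 / 2) * θ) + s =
      2 * Real.sin (m * θ / 2) * Real.cos (m * θ / 2 - θ / 2) := by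
    have e4 : s = Real.sin (m * θ / 2 - (m * θ / 2 - θ / 2)) := by rw [← e2]
    rw [e4, e1, k1]
  have e5 : Real.cos (θ / 2) - Real.cos (((m : ℝ) - 1 / 2) * θ) =
      2 * Real.sin (m * θ / 2) * Real.sin (m * θ / 2 - θ / 2) := by
    have e6 : Real.cos (θ / 2) = Real.cos (m * θ / 2 - (m * θ / 2 - θ / 2)) := by rw [← e2]
    rw [e6, e1, k2]
  rw [e3, e5]
  have e7 := Real.sin_sq_add_cos_sq (m * θ / 2 - θ / 2)
  linear_combination Real.sin (m * θ / 2) ^ 2 * e7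

theorem FEJ_deg (n : ℤ) : (Polynomial.Chebyshev.T ℝ n).natDegree ≤ n.natAbs := by
  have h : ∀ k : ℕ, (Polynomial.Chebyshev.T ℝ (k : ℤ)).natDegree ≤ k ∧
      (Polynomial.Chebyshev.T ℝ ((k + 1 : ℕ) : ℤ)).natDegree ≤ k + 1 := by
    intro k
    induction k with
    | zero => simp
    | succ k ih =>
      refine ⟨ih.2, ?_⟩
      have e1 : (((k + 1 + 1 : ℕ) : ℤ)) = (k : ℤ) + 2 := by push_cast; ring
      have e2 : (((k + 1 : ℕ) : ℤ)) = (k : ℤ) + 1 := by push_cast; ring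
      rw [e1, Polynomial.Chebyshev.T_add_two]
      rw [e2] at ih
      refine (natDegree_sub_le _ _).trans (max_le ?_ ?_)
      · refine natDegree_mul_le.trans ?_
        have h3 : (2 * X : ℝ[X]).natDegree ≤ 1 := by
          refine natDegree_mul_le.trans ?_
          simp
        omega
      · omega
  rcases Int.natAbs_eq n with hn | hn
  · rw [hn, Int.natAbs_natCast]
    exact (h _).1
  · rw [hn, Polynomial.Chebyshev.T_neg, Int.natAbs_neg, Int.natAbs_natCast]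
    exact (h _).1

theorem FEJ : FEJ_stmt := by
  intro m hm
  refine ⟨FEJ_F m, fun θ => ⟨FEJ_nonneg m θ, FEJ_le m hm θ⟩, FEJ_zero m hm,
    fun θ => FEJ_mul m hm θ, fun θ₀ => ?_⟩
  refine ⟨C (1 / (m : ℝ) ^ 2) * ∑ j ∈ Finset.range m, ∑ k ∈ Finset.range m,
    C (2 * Real.cos (((j : ℤ) - (k : ℤ) : ℤ) * θ₀)) *
      Polynomial.Chebyshev.T ℝ ((j : ℤ) - (k : ℤ)), ?_, ?_⟩
  · refine (natDegree_C_mul_le _ _).trans ?_
    refine natDegree_sum_le_of_forall_le _ _ fun j hj => ?_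
    refine natDegree_sum_le_of_forall_le _ _ fun k hk => ?_
    refine (natDegree_C_mul_le _ _).trans ((FEJ_deg _).trans ?_)
    rw [Finset.mem_range] at hj hk
    omega
  · intro θ
    rw [eval_mul, eval_C, eval_finsetSum, FEJ_double, FEJ_double, ← add_div,
      ← Finset.sum_add_distrib, one_div, div_eq_inv_mul]
    congr 1
    refine Finset.sum_congr rfl fun j _ => ?_
    rw [eval_finsetSum, ← Finset.sum_add_distrib]
    refine Finset.sum_congr rfl fun k _ => ?_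
    rw [eval_mul, eval_C, Polynomial.Chebyshev.T_real_cos, mul_sub, mul_add, Real.cos_sub,
      Real.cos_add]
    ring

end Pool.Agent.QX
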