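import Pool.Agent.helper4.QX.SpecF
import Pool.Agent.helper23.RP.PUS
import Pool.Agent.helper62.RP.All

set_option autoImplicit false

/-! # MP_07c750, project QX, row EPT -/

open scoped MatrixGroups ContDiff Topology UpperHalfPlane
open UpperHalfPlane MeasureTheory ProbabilityTheory Filter Set Polynomial
open Pool.Agent.QU Pool.Agent.RP

namespace Pool.Agent.QX

/-! ### Images of matrices -/

section push

variable {G H : Type} [Group G] [Group H]

private theorem EPT_SA {D : ℕ} (f : G →* H) {P : Mat D G} (h : SA P) : SA (pushM f P) := by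
  intro i j
  show adj (push f (P i j)) = push f (P j i)
  rw [← (PUS G H f (P i j) (P i j)).2.2.2.1, h i j]

private theorem EPT_Sup {D : ℕ} (f : G →* H) {P : Mat D G} {S : Set G} {S' : Set H} (h : Sup P S)
    (hS : ∀ γ ∈ S, f γ ∈ S') : Sup (pushM f P) S' := by
  intro i j x hx
  obtain ⟨γ, hγ, rfl⟩ := PUS_supp f (P i j) x hx
  exact hS γ (h i j γ hγ)

private theorem EPT_rep {V : Type} [NormedAddCommGroup V] [InnerProductSpace ℂ V]
    (f : G →* H) (ρ : H →* (V ≃ₗᵢ[ℂ] V)) (a : MonoidAlgebra ℂ G) :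
    rep ρ (push f a) = rep (ρ.comp f) a :=
  ((PUS G H f a a).2.2.2.2.2.2.1 V ρ).symm

private theorem EPT_UnB {D : ℕ} (f : G →* H) {P : Mat D G} {K : ℝ} (h : UnB P K) :
    UnB (pushM f P) K := by
  intro V _ _ _ ρ v
  have h1 := h V (ρ.comp f) v
  have h2 : ∀ i j, rep ρ (pushM f P i j) = rep (ρ.comp f) (P i j) := fun i j => EPT_rep f ρ (P i j)
  simp only [h2]
  exact h1

private theorem EPT_comp {G' : Type} [Group G'] (f : G →* H) (f' : H →* G') (a : MonoidAlgebra ℂ G) :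
    push f' (push f a) = push (f'.comp f) a := by
  rw [PUS_eq, PUS_eq, PUS_eq]
  have h1 : (PUS_hom f').comp (PUS_hom f) = PUS_hom (f'.comp f) := by
    apply MonoidAlgebra.algHom_ext
    · intro x
      rw [AlgHom.comp_apply, ← PUS_eq, ← PUS_eq, ← PUS_eq, PUS_single, PUS_single, PUS_single]
      rfl
    · exact Subsingleton.elim _ _
  exact congrArg (fun φ : MonoidAlgebra ℂ G →ₐ[ℂ] MonoidAlgebra ℂ G' => φ a) h1

private theorem EPT_inv (e : G ≃* H) (a : MonoidAlgebra ℂ H) :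
    push e.toMonoidHom (push e.symm.toMonoidHom a) = a := by
  rw [PUS_eq, PUS_eq]
  have h1 : (PUS_hom e.toMonoidHom).comp (PUS_hom e.symm.toMonoidHom) =
      AlgHom.id ℂ (MonoidAlgebra ℂ H) := by
    apply MonoidAlgebra.algHom_ext
    · intro x
      rw [AlgHom.comp_apply, AlgHom.id_apply, ← PUS_eq, ← PUS_eq, PUS_single, PUS_single]
      simp
    · exact Subsingleton.elim _ _
  exact congrArg (fun φ : MonoidAlgebra ℂ H →ₐ[ℂ] MonoidAlgebra ℂ H => φ a) h1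

private theorem EPT_RegB {D : ℕ} (e : G ≃* H) {P : Mat D G} {r : ℝ} (h : RegB P r) :
    RegB (pushM e.toMonoidHom P) r := by
  intro u
  have hl : ∀ a : MonoidAlgebra ℂ G, l2 (push e.toMonoidHom a) = l2 a := fun a =>
    (PUS G H e.toMonoidHom a a).2.2.2.2.2.1 (e.injective.injOn)
  have h1 := h (fun j => push e.symm.toMonoidHom (u j))
  have h2 : ∀ i, ∑ j, pushM e.toMonoidHom P i j * u j =
      push e.toMonoidHom (∑ j, P i j * push e.symm.toMonoidHom (u j)) := by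
    intro i
    rw [PUS_eq, map_sum]
    refine Finset.sum_congr rfl fun j _ => ?_
    rw [map_mul, ← PUS_eq, ← PUS_eq, EPT_inv]
    rfl
  have h3 : ∀ j, l2 (push e.symm.toMonoidHom (u j)) = l2 (u j) := by
    intro j
    rw [← hl, EPT_inv]
  simp only [h3] at h1
  simp only [h2, hl]
  exact h1

/-! ### One self-adjoint element as a matrix -/

private theorem EPT_one_SA {a : MonoidAlgebra ℂ G} (ha : adj a = a) :
    SA (fun _ _ => a : Mat 1 G) := fun _ _ => ha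

private theorem EPT_one_UnB (a : MonoidAlgebra ℂ G) :
    UnB (fun _ _ => a : Mat 1 G) (∑ γ ∈ a.coeff.support, ‖a.coeff γ‖ + 1) := by
  intro V _ _ _ ρ v
  simp only [Finset.univ_unique, Fin.default_eq_zero, Fin.isValue, Finset.sum_singleton]
  have h1 := (A_REP G V ρ a a (v 0) (v 0)).2.2.2.2.1
  have h2 : |(inner ℂ (v 0) (rep ρ a (v 0))).re| ≤ ‖v 0‖ * ‖rep ρ a (v 0)‖ :=
    (Complex.abs_re_le_norm _).trans (norm_inner_le_norm _ _)
  have h3 : ‖v 0‖ * ‖rep ρ a (v 0)‖ ≤ ‖v 0‖ * ((∑ γ ∈ a.coeff.support, ‖a.coeff γ‖) * ‖v 0‖) :=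
    mul_le_mul_of_nonneg_left h1 (norm_nonneg _)
  have h4 : 0 ≤ ‖v 0‖ ^ 2 := by positivity
  calc |(inner ℂ (v 0) (rep ρ a (v 0))).re|
      ≤ ‖v 0‖ * ((∑ γ ∈ a.coeff.support, ‖a.coeff γ‖) * ‖v 0‖) := h2.trans h3
    _ = (∑ γ ∈ a.coeff.support, ‖a.coeff γ‖) * ‖v 0‖ ^ 2 := by ring
    _ ≤ (∑ γ ∈ a.coeff.support, ‖a.coeff γ‖ + 1) * ‖v 0‖ ^ 2 := by
        rw [add_mul]
        linarith

private theorem EPT_one_RegB (a : MonoidAlgebra ℂ G) {r : ℝ} (hr : regNorm a ≤ r) :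
    RegB (fun _ _ => a : Mat 1 G) r := by
  intro u
  simp only [Finset.univ_unique, Fin.default_eq_zero, Fin.isValue, Finset.sum_singleton]
  have h1 := (A_RNB G a a).2.1 (u 0)
  have h0 : 0 ≤ l2 (u 0) := Real.sqrt_nonneg _
  have h0' : 0 ≤ l2 (a * u 0) := Real.sqrt_nonneg _
  have h2 : l2 (a * u 0) ≤ r * l2 (u 0) := h1.trans (mul_le_mul_of_nonneg_right hr h0)
  calc l2 (a * u 0) ^ 2 ≤ (r * l2 (u 0)) ^ 2 := pow_le_pow_left₀ h0' h2 2
    _ = r ^ 2 * l2 (u 0) ^ 2 := by ring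

end push

/-! ### Word length in the surface group -/

private theorem EPT_SLen {g m n : ℕ} (h : m ≤ n) : SLen g m ⊆ SLen g n := by
  rintro γ ⟨l, hl, rfl⟩
  exact ⟨l, hl.trans h, rfl⟩

private theorem EPT_word {g : ℕ} (x : SurfGrp g) : ∃ n, x ∈ SLen g n := by
  obtain ⟨y, rfl⟩ := PresentedGroup.mk_surjective _ x
  have h1 : PresentedGroup.mk {surfRel g} = FreeGroup.lift (PresentedGroup.of (rels := {surfRel g})) := by
    ext t
    rw [FreeGroup.lift_apply_of]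
    rfl
  refine ⟨y.toWord.length, y.toWord, le_rfl, ?_⟩
  rw [h1]
  conv_lhs => rw [← FreeGroup.mk_toWord (x := y)]
  rw [FreeGroup.lift_mk]
  congr 1
  refine List.map_congr_left fun t _ => ?_
  cases t.2 <;> rfl

private theorem EPT_words {g : ℕ} (S : Finset (SurfGrp g)) : ∃ n, ∀ x ∈ S, x ∈ SLen g n := by
  classical
  induction S using Finset.induction_on with
  | empty => exact ⟨0, by simp⟩
  | insert a S _ ih =>
    obtain ⟨n, hn⟩ := ih
    obtain ⟨m, hm⟩ := EPT_word a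
    refine ⟨max n m, fun x hx => ?_⟩
    rcases Finset.mem_insert.mp hx with rfl | hx
    · exact EPT_SLen (le_max_right _ _) hm
    · exact EPT_SLen (le_max_left _ _) (hn x hx)

/-! ### Numbers -/

private theorem EPT_T {X : ℝ} (hX : 1 ≤ X) : Real.log (2 + X) ≤ 2 * X ∧
    0 < Real.log (2 + X) ∧ 2 + X ≤ Real.exp (2 * X) := by
  refine ⟨?_, Real.log_pos (by linarith), ?_⟩
  · have := Real.log_le_sub_one_of_pos (show 0 < 2 + X by linarith)
    linarith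
  · have := Real.add_one_le_exp (2 * X)
    linarith

private theorem EPT_expow {X : ℝ} (hX : 0 ≤ X) (m : ℕ) : X ^ m ≤ Real.exp (m * X) := by
  have hXX : X ≤ Real.exp X := by
    have := Real.add_one_le_exp X
    linarith
  rw [Real.exp_nat_mul]
  exact pow_le_pow_left₀ hX hXX m

/-- lower bound for the logarithm -/
private theorem EPT_log {κ κ₀ : ℝ} (h0 : 0 < κ₀) (h1 : κ₀ ≤ 1) (h : κ₀ ≤ κ) :
    κ₀ / 2 ≤ Real.log (1 + κ) := by
  have h2 : Real.log (1 + κ₀) ≤ Real.log (1 + κ) := Real.log_le_log (by linarith) (by linarith)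
  have h3 := Real.one_sub_inv_le_log_of_pos (show 0 < 1 + κ₀ by linarith)
  have h4 : κ₀ / 2 ≤ 1 - (1 + κ₀)⁻¹ := by
    have h5 : 1 - (1 + κ₀)⁻¹ = κ₀ / (1 + κ₀) := by
      field_simp
      ring
    rw [h5]
    apply div_le_div_of_nonneg_left h0.le (by linarith) (by linarith)
  linarith

private theorem EPT_num (K a a' : ℕ) (A : ℝ) (hA : 1 ≤ A) :
    ∃ X₀ : ℝ, 1 ≤ X₀ ∧ ∀ X : ℝ, X₀ ≤ X → ∀ q j : ℕ, X ^ 2 ≤ q → (q : ℝ) ≤ 2 * X ^ 2 →
      X ^ (4 * K + 4) ≤ (2 : ℝ) ^ j → (2 : ℝ) ^ j ≤ 2 * X ^ (4 * K + 4) →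
      ∀ r δ K₂ : ℝ, 0 < r → 0 < δ → r ≤ A * X ^ K → 1 ≤ δ * (A * X ^ K) → K₂ ≤ 2 * (A * X ^ K) →
      a' * (⌈A * Real.log (2 + X)⌉₊ + 1) ≤ q ∧
      (∀ k : ℕ, (k : ℝ) ≤ A * X ^ K * (2 + X) ^ 8 →
        (k : ℝ) * (((a * (2 ^ j * q + 1) * (2 ^ j * q) : ℕ) : ℝ) + 1) ^ 2 * r ^ (2 ^ j) ≤
          (r + δ / 2) ^ (2 ^ j) ∧ (k : ℝ) ≤ X ^ (16 * K + 32)) ∧
      ((a * (2 ^ j * q + 1) * q : ℕ) : ℝ) ≤ X ^ (16 * K + 32) ∧
      K₂ / (δ / 2) ≤ X ^ (16 * K + 32) ∧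
      ((⌊X * Real.log (2 + X) ^ 2 / δ⌋₊ + 1 : ℕ) : ℝ) * (X ^ (16 * K + 32))⁻¹ ≤ (X ^ (8 * K + 16))⁻¹ := by
  have ha0 : (0 : ℝ) ≤ a := Nat.cast_nonneg a
  have ha'0 : (0 : ℝ) ≤ a' := Nat.cast_nonneg a'
  have hK0 : (0 : ℝ) ≤ K := Nat.cast_nonneg K
  have hq1 : 0 ≤ (a' : ℝ) * (2 * A + 2) := by positivity
  refine ⟨1 + (a' : ℝ) * (2 * A + 2) + 10 * a + 4 * A ^ 2 + 5 * A + 6561 * A +
    (A + 42 * a + 17 * K + 40), by nlinarith, ?_⟩
  intro X hX q j hq hq' hj hj' r δ K₂ hr hδ hrA hδA hK₂A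
  have hA2 : 0 ≤ A ^ 2 := by positivity
  have hX1 : 1 ≤ X := by linarith
  have hX0 : 0 < X := by linarith
  have hXa' : (a' : ℝ) * (2 * A + 2) ≤ X := by linarith
  have hXa : 10 * (a : ℝ) ≤ X := by linarith
  have hX4 : 4 * A ^ 2 ≤ X := by linarith
  have hX5 : 5 * A ≤ X := by linarith
  have hXA' : 6561 * A ≤ X := by linarith
  have hXA : A + 42 * a + 17 * K + 40 ≤ X := by linarith
  obtain ⟨hT1, hT0, hb⟩ := EPT_T hX1
  set T := Real.log (2 + X) with hT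
  have hpow : ∀ m n : ℕ, m ≤ n → X ^ m ≤ X ^ n := fun m n hmn => pow_le_pow_right₀ hX1 hmn
  have hXm : ∀ m : ℕ, 1 ≤ m → X ≤ X ^ m := by
    intro m hm
    have := hpow 1 m hm
    rwa [pow_one] at this
  have h88 : X ^ (8 * K + 16) * X ^ (8 * K + 16) = X ^ (16 * K + 32) := by
    rw [← pow_add]
    congr 1
    ring
  have hAX : A ≤ Real.exp A := by
    have := Real.add_one_le_exp A
    linarith
  have hexp16 : (2 + X) ^ 8 ≤ Real.exp (16 * X) := by
    have h1 : Real.exp (16 * X) = Real.exp (2 * X) ^ 8 := by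
      rw [← Real.exp_nat_mul]
      congr 1
      push_cast
      ring
    rw [h1]
    exact pow_le_pow_left₀ (by positivity) hb 8
  have hk1 : ∀ k : ℕ, (k : ℝ) ≤ A * X ^ K * (2 + X) ^ 8 → (k : ℝ) ≤ Real.exp (A + K * X + 16 * X) := by
    intro k hk
    rw [Real.exp_add, Real.exp_add]
    refine hk.trans ?_
    apply mul_le_mul _ hexp16 (by positivity) (by positivity)
    exact mul_le_mul hAX (EPT_expow hX0.le K) (by positivity) (Real.exp_pos _).le
  have h2j : (0 : ℝ) ≤ (2 : ℝ) ^ j := by positivity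
  have hqq : (0 : ℝ) ≤ q := Nat.cast_nonneg q
  have hprod : (2 : ℝ) ^ j * q ≤ 4 * X ^ (4 * K + 6) := by
    calc (2 : ℝ) ^ j * q ≤ (2 * X ^ (4 * K + 4)) * (2 * X ^ 2) :=
          mul_le_mul hj' hq' hqq (by positivity)
      _ = 4 * X ^ (4 * K + 6) := by
          rw [show 4 * K + 6 = (4 * K + 4) + 2 by ring, pow_add X (4 * K + 4) 2]
          ring
  have hprod1 : (2 : ℝ) ^ j * q + 1 ≤ 5 * X ^ (4 * K + 6) := by
    have : (1 : ℝ) ≤ X ^ (4 * K + 6) := one_le_pow₀ hX1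
    linarith
  refine ⟨?_, ?_, ?_, ?_, ?_⟩
  · have h1 : (⌈A * T⌉₊ : ℝ) < A * T + 1 := Nat.ceil_lt_add_one (by positivity)
    have h2 : A * T ≤ 2 * A * X := by
      have := mul_le_mul_of_nonneg_left hT1 (by linarith : (0 : ℝ) ≤ A)
      linarith
    have h3 : (a' : ℝ) * ((⌈A * T⌉₊ : ℝ) + 1) ≤ X ^ 2 := by
      calc (a' : ℝ) * ((⌈A * T⌉₊ : ℝ) + 1) ≤ (a' : ℝ) * (2 * A * X + 2) :=
            mul_le_mul_of_nonneg_left (by linarith) ha'0
        _ ≤ (a' : ℝ) * ((2 * A + 2) * X) := by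
            apply mul_le_mul_of_nonneg_left _ ha'0
            linarith
        _ = ((a' : ℝ) * (2 * A + 2)) * X := by ring
        _ ≤ X * X := mul_le_mul_of_nonneg_right hXa' hX0.le
        _ = X ^ 2 := by ring
    have h4 : ((a' * (⌈A * T⌉₊ + 1) : ℕ) : ℝ) ≤ (q : ℝ) := by
      push_cast
      exact h3.trans hq
    exact_mod_cast h4
  · intro k hk
    have hk2 := hk1 k hk
    refine ⟨?_, ?_⟩
    · set κ := δ / (2 * r) with hκ
      have hκ0 : 0 < κ := by positivity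
      have h1 : r + δ / 2 = r * (1 + κ) := by
        rw [hκ]
        field_simp
      rw [h1, mul_pow, mul_comm]
      apply mul_le_mul_of_nonneg_left _ (by positivity)
      have h2 : (((a * (2 ^ j * q + 1) * (2 ^ j * q) : ℕ) : ℝ) + 1) ≤
          Real.exp (21 * a + (8 * K + 12) * X) := by
        push_cast
        have h3 : (a : ℝ) * ((2 : ℝ) ^ j * q + 1) * ((2 : ℝ) ^ j * q) ≤
            a * (5 * X ^ (4 * K + 6)) * (4 * X ^ (4 * K + 6)) := by
          apply mul_le_mul _ hprod (by positivity) (by positivity)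
          exact mul_le_mul_of_nonneg_left hprod1 ha0
        have h4 : (1 : ℝ) ≤ X ^ (8 * K + 12) := one_le_pow₀ hX1
        have h5 : (a : ℝ) * ((2 : ℝ) ^ j * q + 1) * ((2 : ℝ) ^ j * q) + 1 ≤ (20 * a + 1) * X ^ (8 * K + 12) := by
          have h6 : a * (5 * X ^ (4 * K + 6)) * (4 * X ^ (4 * K + 6)) = 20 * a * X ^ (8 * K + 12) := by
            rw [show 8 * K + 12 = (4 * K + 6) + (4 * K + 6) by ring, pow_add X (4 * K + 6) (4 * K + 6)]
            ring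
          rw [h6] at h3
          linarith
        refine h5.trans ?_
        rw [Real.exp_add]
        have h7 : (20 * (a : ℝ) + 1) ≤ Real.exp (21 * a) := by
          have := Real.add_one_le_exp (21 * (a : ℝ))
          linarith
        have h8 : X ^ (8 * K + 12) ≤ Real.exp ((8 * K + 12) * X) := by
          have h9 := EPT_expow hX0.le (8 * K + 12)
          push_cast at h9
          exact h9
        exact mul_le_mul h7 h8 (by positivity) (Real.exp_pos _).le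
      have h3 : (k : ℝ) * (((a * (2 ^ j * q + 1) * (2 ^ j * q) : ℕ) : ℝ) + 1) ^ 2 ≤
          Real.exp (A + 42 * a + (17 * K + 40) * X) := by
        have h4 : Real.exp (A + 42 * a + (17 * K + 40) * X) =
            Real.exp (A + K * X + 16 * X) * Real.exp (21 * a + (8 * K + 12) * X) ^ 2 := by
          rw [← Real.exp_nat_mul, ← Real.exp_add]
          congr 1
          push_cast
          ring
        rw [h4]
        apply mul_le_mul hk2 _ (by positivity) (Real.exp_pos _).le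
        exact pow_le_pow_left₀ (by positivity) h2 2
      refine h3.trans ?_
      have h5 : (1 + κ) ^ (2 ^ j) = Real.exp (Real.log (1 + κ) * (2 : ℝ) ^ j) := by
        rw [mul_comm]
        have h6 : ((2 : ℝ) ^ j) = ((2 ^ j : ℕ) : ℝ) := by push_cast; rfl
        rw [h6, Real.exp_nat_mul, Real.exp_log (by linarith)]
      rw [h5]
      apply Real.exp_le_exp.mpr
      have hXK : (0 : ℝ) < X ^ K := by positivity
      have hXK1 : (1 : ℝ) ≤ X ^ K := one_le_pow₀ hX1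
      have hAX1 : 1 ≤ A * X ^ K := by nlinarith
      have hAX0 : 0 < A * X ^ K := by positivity
      have hκ₀0 : 0 < 1 / (2 * (A * X ^ K) ^ 2) := by positivity
      have hκ₀1 : 1 / (2 * (A * X ^ K) ^ 2) ≤ 1 := by
        rw [div_le_one (by positivity)]
        nlinarith
      have hκκ₀ : 1 / (2 * (A * X ^ K) ^ 2) ≤ κ := by
        rw [hκ, div_le_div_iff₀ (by positivity) (by positivity)]
        have h11 : r * 1 ≤ (A * X ^ K) * (δ * (A * X ^ K)) := mul_le_mul hrA hδA (by norm_num) hAX0.le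
        nlinarith
      have hl := EPT_log hκ₀0 hκ₀1 hκκ₀
      have h7 : A + 42 * a + (17 * K + 40) * X ≤ X ^ 2 := by
        have h71 : (A + 42 * a + 17 * K + 40) * X ≤ X * X := mul_le_mul_of_nonneg_right hXA hX0.le
        have h72 : A + 42 * a ≤ (A + 42 * a) * X := le_mul_of_one_le_right (by linarith) hX1
        have h73 : X * X = X ^ 2 := by ring
        have h74 : (A + 42 * a + 17 * K + 40) * X = (A + 42 * a) * X + (17 * K + 40) * X := by ring
        linarith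
      have h8 : X ^ 2 ≤ 1 / (2 * (A * X ^ K) ^ 2) / 2 * X ^ (4 * K + 4) := by
        have h9 : 1 / (2 * (A * X ^ K) ^ 2) / 2 * X ^ (4 * K + 4) = X ^ (2 * K + 4) / (4 * A ^ 2) := by
          rw [show 4 * K + 4 = 2 * K + (2 * K + 4) by ring, pow_add X (2 * K) (2 * K + 4), mul_pow, ← pow_mul,
            mul_comm K 2]
          field_simp
          ring
        rw [h9, le_div_iff₀ (by positivity)]
        calc X ^ 2 * (4 * A ^ 2) ≤ X ^ 2 * X := mul_le_mul_of_nonneg_left hX4 (by positivity)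
          _ = X ^ 3 := by ring
          _ ≤ X ^ (2 * K + 4) := hpow _ _ (by omega)
      have h9 : 1 / (2 * (A * X ^ K) ^ 2) / 2 * X ^ (4 * K + 4) ≤ Real.log (1 + κ) * (2 : ℝ) ^ j :=
        mul_le_mul hl hj (by positivity) (by linarith)
      linarith
    · have h1 : (2 + X) ^ 8 ≤ (3 * X) ^ 8 := pow_le_pow_left₀ (by positivity) (by linarith) 8
      have h2 : A * X ^ K * (2 + X) ^ 8 ≤ A * X ^ K * (3 * X) ^ 8 :=
        mul_le_mul_of_nonneg_left h1 (by positivity)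
      have h3 : A * X ^ K * (3 * X) ^ 8 = (6561 * A) * X ^ (K + 8) := by
        rw [pow_add]
        ring
      have h4 : (6561 * A) * X ^ (K + 8) ≤ X * X ^ (K + 8) :=
        mul_le_mul_of_nonneg_right hXA' (by positivity)
      have h5 : X * X ^ (K + 8) = X ^ (K + 9) := by
        rw [show K + 9 = (K + 8) + 1 by ring, pow_succ X (K + 8)]
        ring
      have h6 : X ^ (K + 9) ≤ X ^ (16 * K + 32) := hpow _ _ (by omega)
      linarith
  · push_cast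
    have h1 : (a : ℝ) * ((2 : ℝ) ^ j * q + 1) * q ≤ a * (5 * X ^ (4 * K + 6)) * (2 * X ^ 2) := by
      apply mul_le_mul _ hq' hqq (by positivity)
      exact mul_le_mul_of_nonneg_left hprod1 ha0
    have h2 : (a : ℝ) * (5 * X ^ (4 * K + 6)) * (2 * X ^ 2) = (10 * a) * X ^ (4 * K + 8) := by
      rw [show 4 * K + 8 = (4 * K + 6) + 2 by ring, pow_add X (4 * K + 6) 2]
      ring
    have h3 : (10 * (a : ℝ)) * X ^ (4 * K + 8) ≤ X * X ^ (4 * K + 8) :=
      mul_le_mul_of_nonneg_right hXa (by positivity)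
    have h5 : X * X ^ (4 * K + 8) = X ^ (4 * K + 9) := by
      rw [show 4 * K + 9 = (4 * K + 8) + 1 by ring, pow_succ X (4 * K + 8)]
      ring
    have h6 : X ^ (4 * K + 9) ≤ X ^ (16 * K + 32) := hpow _ _ (by omega)
    linarith
  · rw [div_le_iff₀ (by positivity)]
    have hXK : (0 : ℝ) < X ^ K := by positivity
    have h1 : K₂ ≤ 2 * (A * X ^ K) * (δ * (A * X ^ K)) := by
      refine hK₂A.trans ?_
      exact le_mul_of_one_le_right (by positivity) hδA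
    have h2 : 2 * (A * X ^ K) * (δ * (A * X ^ K)) = (4 * A ^ 2) * X ^ (2 * K) * (δ / 2) := by
      rw [mul_comm 2 K, pow_mul]
      ring
    have h3 : (4 * A ^ 2) * X ^ (2 * K) ≤ X ^ (16 * K + 32) := by
      calc (4 * A ^ 2) * X ^ (2 * K) ≤ X * X ^ (2 * K) := mul_le_mul_of_nonneg_right hX4 (by positivity)
        _ = X ^ (2 * K + 1) := by rw [pow_succ]; ring
        _ ≤ X ^ (16 * K + 32) := hpow _ _ (by omega)
    have h4 : (4 * A ^ 2) * X ^ (2 * K) * (δ / 2) ≤ X ^ (16 * K + 32) * (δ / 2) :=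
      mul_le_mul_of_nonneg_right h3 (by positivity)
    linarith
  · have h1 : ((⌊X * T ^ 2 / δ⌋₊ + 1 : ℕ) : ℝ) ≤ X * T ^ 2 / δ + 1 := by
      push_cast
      have := Nat.floor_le (show 0 ≤ X * T ^ 2 / δ by positivity)
      linarith
    have h2 : T ^ 2 ≤ 4 * X ^ 2 := by
      have := pow_le_pow_left₀ hT0.le hT1 2
      have h21 : (2 * X) ^ 2 = 4 * X ^ 2 := by ring
      linarith
    have h4 : X * T ^ 2 / δ ≤ 4 * A * X ^ (K + 3) := by
      rw [div_le_iff₀ hδ]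
      have h6 : X * T ^ 2 ≤ X * (4 * X ^ 2) := mul_le_mul_of_nonneg_left h2 hX0.le
      have h7 : X * (4 * X ^ 2) ≤ X * (4 * X ^ 2) * (δ * (A * X ^ K)) :=
        le_mul_of_one_le_right (by positivity) hδA
      have h8 : X * (4 * X ^ 2) * (δ * (A * X ^ K)) = 4 * A * X ^ (K + 3) * δ := by
        rw [pow_add]
        ring
      linarith
    have h5 : (1 : ℝ) ≤ X ^ (K + 3) := one_le_pow₀ hX1
    have h6 : ((⌊X * T ^ 2 / δ⌋₊ + 1 : ℕ) : ℝ) ≤ X ^ (K + 4) := by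
      calc ((⌊X * T ^ 2 / δ⌋₊ + 1 : ℕ) : ℝ) ≤ 4 * A * X ^ (K + 3) + A * X ^ (K + 3) := by nlinarith
        _ = (5 * A) * X ^ (K + 3) := by ring
        _ ≤ X * X ^ (K + 3) := mul_le_mul_of_nonneg_right hX5 (by positivity)
        _ = X ^ (K + 4) := by
            rw [show K + 4 = (K + 3) + 1 by ring, pow_succ X (K + 3)]
            ring
    calc ((⌊X * T ^ 2 / δ⌋₊ + 1 : ℕ) : ℝ) * (X ^ (16 * K + 32))⁻¹
        ≤ X ^ (8 * K + 16) * (X ^ (16 * K + 32))⁻¹ :=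
          mul_le_mul_of_nonneg_right (h6.trans (hpow _ _ (by omega))) (by positivity)
      _ = (X ^ (8 * K + 16))⁻¹ := by
          rw [← h88]
          field_simp

private theorem EPT_qj (K : ℕ) (X : ℝ) : ∃ qj : ℕ × ℕ, 1 ≤ X → (X ^ 2 ≤ qj.1 ∧ (qj.1 : ℝ) ≤ 2 * X ^ 2 ∧
    X ^ (4 * K + 4) ≤ (2 : ℝ) ^ qj.2 ∧ (2 : ℝ) ^ qj.2 ≤ 2 * X ^ (4 * K + 4)) := by
  by_cases hX : 1 ≤ X
  · have h4 : (1 : ℝ) ≤ X ^ (4 * K + 4) := one_le_pow₀ hX
    obtain ⟨n, hn1, hn2⟩ := exists_nat_pow_near h4 (show (1 : ℝ) < 2 by norm_num)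
    refine ⟨(⌈X ^ 2⌉₊, n + 1), fun _ => ⟨Nat.le_ceil _, ?_, hn2.le, ?_⟩⟩
    · have h2 : (1 : ℝ) ≤ X ^ 2 := one_le_pow₀ hX
      have h3 : (⌈X ^ 2⌉₊ : ℝ) < X ^ 2 + 1 := Nat.ceil_lt_add_one (by positivity)
      show (⌈X ^ 2⌉₊ : ℝ) ≤ 2 * X ^ 2
      linarith
    · show (2 : ℝ) ^ (n + 1) ≤ 2 * X ^ (4 * K + 4)
      rw [pow_succ]
      linarith
  · exact ⟨(0, 0), fun h => absurd h hX⟩

/-! ### The row -/

theorem EPT (hSCP : SCP_stmt) (hLMQ : LMQ_stmt) (hSVM : SVM_stmt) (hZRP : ZRP_stmt) (hEDT : EDT_stmt) :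
    EPT_stmt := by
  classical
  obtain ⟨s₀, hs₀, N₁, hN₁, hSCP⟩ := hSCP
  obtain ⟨K, hEDT⟩ := hEDT
  have hM0 : (0 : ℝ) < 16 * (K : ℝ) + 32 := by positivity
  obtain ⟨c, hc⟩ : ∃ c : ℝ, c = s₀ / (16 * K + 32) := ⟨_, rfl⟩
  have hc0 : 0 < c := by rw [hc]; positivity
  refine ⟨c, s₀ / 2, hc0, by positivity, ?_⟩
  intro Γ g e hg hΓ
  obtain ⟨a, ha, hLMQ⟩ := hLMQ g hg
  choose qj hqj using fun N : ℕ => EPT_qj K ((N : ℝ) ^ c)
  choose θ' hθ1 hθ2 using hLMQ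
  have htend : Tendsto (fun N : ℕ => (N : ℝ) ^ c) atTop atTop :=
    (tendsto_rpow_atTop hc0).comp tendsto_natCast_atTop_atTop
  have hX16 : ∀ N : ℕ, (N : ℝ) ^ s₀ = ((N : ℝ) ^ c) ^ (16 * K + 32) := by
    intro N
    rw [← Real.rpow_natCast, ← Real.rpow_mul (Nat.cast_nonneg N)]
    congr 1
    rw [hc]
    push_cast
    field_simp
  have hX16' : ∀ N : ℕ, (N : ℝ) ^ (-s₀) = (((N : ℝ) ^ c) ^ (16 * K + 32))⁻¹ := by
    intro N
    rw [Real.rpow_neg (Nat.cast_nonneg N), hX16]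
  have hX8' : ∀ N : ℕ, (N : ℝ) ^ (-(s₀ / 2)) = (((N : ℝ) ^ c) ^ (8 * K + 16))⁻¹ := by
    intro N
    rw [Real.rpow_neg (Nat.cast_nonneg N)]
    congr 1
    rw [← Real.rpow_natCast, ← Real.rpow_mul (Nat.cast_nonneg N)]
    congr 1
    rw [hc]
    push_cast
    field_simp
    ring
  -- one matrix
  have hcore : ∀ (N : ℕ), N₁ ≤ N → ∀ (k : ℕ) (P : Mat k Γ) (r δ K₂ : ℝ), 1 ≤ k → SA P →
      Sup (pushM e.toMonoidHom P) (SLen g (qj N).1) → UnB P K₂ → RegB P r → 0 ≤ r → 0 < δ → 0 < K₂ →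
      (k : ℝ) * (((a * (2 ^ (qj N).2 * (qj N).1 + 1) * (2 ^ (qj N).2 * (qj N).1) : ℕ) : ℝ) + 1) ^ 2 *
        r ^ (2 ^ (qj N).2) ≤ (r + δ / 2) ^ (2 ^ (qj N).2) →
      (k : ℝ) ≤ ((N : ℝ) ^ c) ^ (16 * K + 32) →
      ((a * (2 ^ (qj N).2 * (qj N).1 + 1) * (qj N).1 : ℕ) : ℝ) ≤ ((N : ℝ) ^ c) ^ (16 * K + 32) →
      K₂ / (δ / 2) ≤ ((N : ℝ) ^ c) ^ (16 * K + 32) →
      ∃ B : Finset (Fin 2 → Equiv.Perm (Fin N)),
        (B.card : ℝ) ≤ (((N : ℝ) ^ c) ^ (16 * K + 32))⁻¹ * (N.factorial : ℝ) ^ 2 ∧ ∀ σ, σ ∉ B →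
          RepZ (FreeGroup.lift σ) (pushM ((θ' (qj N).1 (qj N).2).comp e.toMonoidHom) P) (r + δ) := by
    intro N hN k P r δ K₂ hk hSA hSup hUnB hReg hr hδ hK₂ m1 m2 m3 m4
    have hcomp : pushM (θ' (qj N).1 (qj N).2) (pushM e.toMonoidHom P) =
        pushM ((θ' (qj N).1 (qj N).2).comp e.toMonoidHom) P := by
      funext i j
      exact EPT_comp _ _ _
    have hReg2 : RegB (pushM (θ' (qj N).1 (qj N).2) (pushM e.toMonoidHom P)) (r + δ / 2) :=
      hθ2 (qj N).1 (qj N).2 k _ r (r + δ / 2) (EPT_SA _ hSA) hSup hr (by linarith)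
        (EPT_RegB e hReg) m1
    have hSup2 : Sup (pushM (θ' (qj N).1 (qj N).2) (pushM e.toMonoidHom P))
        {w | w.norm ≤ a * (2 ^ (qj N).2 * (qj N).1 + 1) * (qj N).1} :=
      EPT_Sup _ hSup fun γ hγ => hθ1 (qj N).1 (qj N).2 (qj N).1 γ hγ
    have hprob := hSCP N hN k (a * (2 ^ (qj N).2 * (qj N).1 + 1) * (qj N).1) _ K₂ (r + δ / 2) (δ / 2)
      hk (EPT_SA _ (EPT_SA _ hSA)) hSup2 (EPT_UnB _ (EPT_UnB _ hUnB)) hReg2 (by linarith)
      (by linarith) hK₂ (by rw [hX16]; exact m3) (by rw [hX16]; exact m4) (by rw [hX16]; exact m2)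
    rw [hX16'] at hprob
    refine ⟨_, hprob, fun σ hσ => ?_⟩
    unfold badM at hσ
    rw [Finset.mem_filter, not_and_not_right] at hσ
    have h6 := hσ (Finset.mem_univ _)
    have h7 : r + δ / 2 + δ / 2 = r + δ := by ring
    rw [h7, hcomp] at h6
    exact h6
  refine ⟨fun N => (θ' (qj N).1 (qj N).2).comp e.toMonoidHom, ?_, ?_⟩
  · intro F hF
    obtain ⟨A, hA, hEDT⟩ := hEDT Γ F hΓ hF
    obtain ⟨a', ha', hSVM⟩ := hSVM Γ F g e hΓ hF
    obtain ⟨X₀, hX₀, hnum⟩ := EPT_num K a a' A hA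
    obtain ⟨N₂, hN₂⟩ := (htend.eventually_ge_atTop X₀).exists_forall_of_atTop
    refine ⟨max N₁ N₂, fun N hN h hh => ?_⟩
    have hNN₁ : N₁ ≤ N := (le_max_left _ _).trans hN
    have hXX₀ : X₀ ≤ (N : ℝ) ^ c := hN₂ N ((le_max_right _ _).trans hN)
    have hcoreN := hcore N hNN₁
    have hX8N := hX8' N
    have hqjN := hqj N
    have hXneg : (N : ℝ) ^ (-c) = ((N : ℝ) ^ c)⁻¹ := Real.rpow_neg (Nat.cast_nonneg N) c
    unfold GoodP
    rw [hXneg]
    set X : ℝ := (N : ℝ) ^ c with hX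
    have hX1 : 1 ≤ X := hX₀.trans hXX₀
    have hXpos : 0 < X := by linarith
    have hXK : (0 : ℝ) < X ^ K := by positivity
    have hXK1 : (1 : ℝ) ≤ X ^ K := one_le_pow₀ hX1
    obtain ⟨Q, δ, hQ1, hQA, hδA, hδ1, hDET⟩ := hEDT h hh X⁻¹ (by positivity) (inv_le_one_of_one_le₀ hX1)
    rw [inv_pow] at hQA hδA
    have hQA' : Q ≤ A * X ^ K := by
      have h1 : A / (X ^ K)⁻¹ = A * X ^ K := by field_simp
      rwa [h1] at hQA
    have hδ : 0 < δ := by
      have h1 : 0 < (X ^ K)⁻¹ / A := by positivity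
      linarith
    have hδA' : 1 ≤ δ * (A * X ^ K) := by
      have h1 : (X ^ K)⁻¹ / A * (A * X ^ K) = 1 := by field_simp
      have h2 : (X ^ K)⁻¹ / A * (A * X ^ K) ≤ δ * (A * X ^ K) :=
        mul_le_mul_of_nonneg_right hδA (by positivity)
      linarith
    obtain ⟨hq1, hq2, hj1, hj2⟩ := hqjN hX1
    obtain ⟨n1, n2, n3, n4, n5⟩ := hnum X hXX₀ (qj N).1 (qj N).2 hq1 hq2 hj1 hj2 Q δ (2 * Q)
      (by linarith) hδ hQA' hδA' (by linarith)
    obtain ⟨hT1, hT0, hb⟩ := EPT_T hX1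
    set T : ℝ := Real.log (2 + X) with hTdef
    set q := (qj N).1 with hqdef
    set j := (qj N).2 with hjdef
    have hX0 : 0 ≤ X := by linarith
    have hcs : CompleteSpace (FI2_S N) := FiniteDimensional.complete ℂ _
    -- one grid point
    have hone : ∀ i : ℕ, ∃ Bi : Finset (Fin 2 → Equiv.Perm (Fin N)),
        (Bi.card : ℝ) ≤ (X ^ (16 * K + 32))⁻¹ * (N.factorial : ℝ) ^ 2 ∧
        ((i : ℝ) * (δ / T ^ 2) ≤ X → ∀ σ, σ ∉ Bi →
          ∀ (φ : ℍ → FI2_S N) (μ : ℝ),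
            IsEigensection (V := FI2_S N)
              (FI2_rho ((FreeGroup.lift σ).comp ((θ' q j).comp e.toMonoidHom))) μ φ →
            0 ≤ μ → μ ≤ X → |μ - (i : ℝ) * (δ / T ^ 2)| ≤ δ / T ^ 2 →
            ∫ z in F, h z * ‖φ z‖ ^ 2 ≤ X⁻¹ * ∫ z in F, ‖φ z‖ ^ 2) := by
      intro i
      by_cases hi : (i : ℝ) * (δ / T ^ 2) ≤ X
      · obtain ⟨k, P, hk1, hkA, hSA, hUnB, hRegB, hSup, hcon⟩ :=
          hDET X ((i : ℝ) * (δ / T ^ 2)) hX0 (by positivity) hi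
        have hkA' : (k : ℝ) ≤ A * X ^ K * (2 + X) ^ 8 := by
          have h1 : A / X⁻¹ ^ K = A * X ^ K := by rw [inv_pow]; field_simp
          rwa [h1] at hkA
        obtain ⟨m1, m2⟩ := n2 k hkA'
        have hSup1 : Sup (pushM e.toMonoidHom P) (SLen g q) := by
          refine EPT_Sup _ hSup ?_
          intro γ hγ
          have h5 := hSVM (A * T) ⌈A * T⌉₊ (by positivity) (Nat.le_ceil _) γ hγ
          exact EPT_SLen n1 h5
        obtain ⟨B, hB1, hB2⟩ := hcoreN k P Q δ (2 * Q) hk1 hSA hSup1 hUnB hRegB (by linarith) hδ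
          (by linarith) m1 m2 n3 n4
        refine ⟨B, hB1, fun _ σ hσ φ μ hφ hμ0 hμb hμi => ?_⟩
        have hRep := (hZRP N).1 Γ ((θ' q j).comp e.toMonoidHom) k P (Q + δ) (FreeGroup.lift σ) (hB2 σ hσ)
        exact hcon (FI2_S N) _ hRep φ μ hφ hμ0 hμb hμi
      · refine ⟨∅, ?_, fun h => absurd h hi⟩
        rw [Finset.card_empty, Nat.cast_zero]
        positivity
    choose Bi hBi1 hBi2 using hone
    refine ⟨(Finset.range (⌊X * T ^ 2 / δ⌋₊ + 1)).biUnion Bi, ?_, ?_⟩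
    · have hc1 : (((Finset.range (⌊X * T ^ 2 / δ⌋₊ + 1)).biUnion Bi).card : ℝ) ≤
          ∑ i ∈ Finset.range (⌊X * T ^ 2 / δ⌋₊ + 1), ((Bi i).card : ℝ) := by
        have := Finset.card_biUnion_le (s := Finset.range (⌊X * T ^ 2 / δ⌋₊ + 1)) (t := Bi)
        exact_mod_cast this
      refine hc1.trans ?_
      calc ∑ i ∈ Finset.range (⌊X * T ^ 2 / δ⌋₊ + 1), ((Bi i).card : ℝ)
          ≤ ∑ i ∈ Finset.range (⌊X * T ^ 2 / δ⌋₊ + 1), (X ^ (16 * K + 32))⁻¹ * (N.factorial : ℝ) ^ 2 :=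
            Finset.sum_le_sum fun i _ => hBi1 i
        _ = (((⌊X * T ^ 2 / δ⌋₊ + 1 : ℕ) : ℝ) * (X ^ (16 * K + 32))⁻¹) * (N.factorial : ℝ) ^ 2 := by
            rw [Finset.sum_const, Finset.card_range, nsmul_eq_mul, mul_assoc]
        _ ≤ (X ^ (8 * K + 16))⁻¹ * (N.factorial : ℝ) ^ 2 := mul_le_mul_of_nonneg_right n5 (by positivity)
        _ = _ := by rw [hX8N]
    · intro σ hσ μ φ hμ0 hμb hφ
      obtain ⟨ψ, hψ1, hψ2⟩ := (hZRP N).2 Γ _ μ φ hφ
      have hT2 : 0 < T ^ 2 := by positivity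
      have hstep : 0 < δ / T ^ 2 := by positivity
      set i := ⌊μ * T ^ 2 / δ⌋₊ with hi
      have hi1 : (i : ℝ) ≤ μ * T ^ 2 / δ := Nat.floor_le (by positivity)
      have hi2 : μ * T ^ 2 / δ < i + 1 := Nat.lt_floor_add_one _
      have hiM : i < ⌊X * T ^ 2 / δ⌋₊ + 1 := by
        apply Nat.lt_succ_of_le
        apply Nat.floor_le_floor
        apply div_le_div_of_nonneg_right _ hδ.le
        exact mul_le_mul_of_nonneg_right hμb hT2.le
      have hi3 : (i : ℝ) * (δ / T ^ 2) ≤ μ := by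
        have h5 : (i : ℝ) * (δ / T ^ 2) ≤ (μ * T ^ 2 / δ) * (δ / T ^ 2) :=
          mul_le_mul_of_nonneg_right hi1 hstep.le
        have h6 : (μ * T ^ 2 / δ) * (δ / T ^ 2) = μ := by
          field_simp
        linarith
      have hi4 : μ ≤ (i : ℝ) * (δ / T ^ 2) + δ / T ^ 2 := by
        have h5 : (μ * T ^ 2 / δ) * (δ / T ^ 2) ≤ (i + 1) * (δ / T ^ 2) :=
          mul_le_mul_of_nonneg_right hi2.le hstep.le
        have h6 : (μ * T ^ 2 / δ) * (δ / T ^ 2) = μ := by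
          field_simp
        linarith
      have hσi : σ ∉ Bi i := by
        intro hσi
        apply hσ
        rw [Finset.mem_biUnion]
        exact ⟨i, Finset.mem_range.mpr hiM, hσi⟩
      have hfin := hBi2 i (hi3.trans hμb) σ hσi ψ μ hψ1 hμ0 hμb (by
        rw [abs_le]
        constructor <;> linarith)
      simp only [hψ2] at hfin
      exact hfin
  · intro b ε hb hε
    obtain ⟨n₀, hn₀⟩ := EPT_words ((b.coeff.support).image e.toMonoidHom)
    have hreg0 : 0 ≤ regNorm b := (A_RNB Γ b b).1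
    have hK₂ : 0 < ∑ γ ∈ b.coeff.support, ‖b.coeff γ‖ + 1 := by positivity
    have hA1 : (1 : ℝ) ≤ 1 + (regNorm b + ε / 4) + 1 / (ε / 2) +
        (∑ γ ∈ b.coeff.support, ‖b.coeff γ‖ + 1) := by
      have : 0 < 1 / (ε / 2) := by positivity
      linarith
    obtain ⟨A, hAdef⟩ : ∃ A : ℝ, A = 1 + (regNorm b + ε / 4) + 1 / (ε / 2) +
        (∑ γ ∈ b.coeff.support, ‖b.coeff γ‖ + 1) := ⟨_, rfl⟩
    rw [← hAdef] at hA1
    obtain ⟨X₀, hX₀, hnum⟩ := EPT_num K a 0 A hA1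
    obtain ⟨N₂, hN₂⟩ := (htend.eventually_ge_atTop (max X₀ n₀)).exists_forall_of_atTop
    refine ⟨max N₁ N₂, fun N hN => ?_⟩
    have hNN₁ : N₁ ≤ N := (le_max_left _ _).trans hN
    have hXX : max X₀ n₀ ≤ (N : ℝ) ^ c := hN₂ N ((le_max_right _ _).trans hN)
    have hXX₀ : X₀ ≤ (N : ℝ) ^ c := (le_max_left _ _).trans hXX
    have hXn₀ : (n₀ : ℝ) ≤ (N : ℝ) ^ c := (le_max_right _ _).trans hXX
    have hcoreN := hcore N hNN₁
    have hX8N := hX8' N
    have hqjN := hqj N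
    set X : ℝ := (N : ℝ) ^ c with hX
    have hX1 : 1 ≤ X := hX₀.trans hXX₀
    have hXK1 : (1 : ℝ) ≤ X ^ K := one_le_pow₀ hX1
    have hAXK : A ≤ A * X ^ K := le_mul_of_one_le_right (by linarith) hXK1
    have hinv : 0 < 1 / (ε / 2) := by positivity
    have hinv2 : ε / 2 * (1 / (ε / 2)) = 1 := by field_simp
    obtain ⟨hq1, hq2, hj1, hj2⟩ := hqjN hX1
    obtain ⟨n1, n2, n3, n4, n5⟩ := hnum X hXX₀ (qj N).1 (qj N).2 hq1 hq2 hj1 hj2
      (regNorm b + ε / 4) (ε / 2) (∑ γ ∈ b.coeff.support, ‖b.coeff γ‖ + 1) (by linarith) (by linarith)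
      (by linarith) (by
        have h1 : ε / 2 * (1 / (ε / 2)) ≤ ε / 2 * (A * X ^ K) :=
          mul_le_mul_of_nonneg_left (by linarith) (by linarith)
        linarith) (by linarith)
    obtain ⟨m1, m2⟩ := n2 1 (by
      have h6 : (1 : ℝ) ≤ (2 + X) ^ 8 := one_le_pow₀ (by linarith)
      have h7 : (1 : ℝ) ≤ A * X ^ K := by linarith
      push_cast
      nlinarith)
    have hnq : n₀ ≤ (qj N).1 := by
      have h6 : (n₀ : ℝ) ≤ ((qj N).1 : ℝ) := by
        have h7 : X ≤ X ^ 2 := by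
          have := pow_le_pow_right₀ hX1 (show 1 ≤ 2 by norm_num)
          rwa [pow_one] at this
        linarith
      exact_mod_cast h6
    have hSup1 : Sup (pushM e.toMonoidHom (fun _ _ => b : Mat 1 Γ)) (SLen g (qj N).1) := by
      refine EPT_Sup _ (S := {γ | γ ∈ b.coeff.support}) (fun _ _ γ hγ => hγ) ?_
      intro γ hγ
      exact EPT_SLen hnq (hn₀ _ (Finset.mem_image_of_mem _ hγ))
    obtain ⟨B, hB1, hB2⟩ := hcoreN 1 (fun _ _ => b : Mat 1 Γ) (regNorm b + ε / 4) (ε / 2) _ le_rfl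
      (EPT_one_SA hb) hSup1 (EPT_one_UnB b) (EPT_one_RegB b (by linarith)) (by linarith)
      (by linarith) hK₂ m1 m2 n3 n4
    refine ⟨B, ?_, fun σ hσ v hv => ?_⟩
    · refine hB1.trans ?_
      rw [hX8N]
      apply mul_le_mul_of_nonneg_right _ (by positivity)
      apply inv_anti₀ (by positivity)
      exact pow_le_pow_right₀ hX1 (by omega)
    · have h6 := hB2 σ hσ (fun _ => v) (fun _ => hv)
      simp only [Finset.univ_unique, Fin.default_eq_zero, Fin.isValue, Finset.sum_singleton] at h6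
      have h7 : rep (permRep (FreeGroup.lift σ))
          (pushM ((θ' (qj N).1 (qj N).2).comp e.toMonoidHom) (fun _ _ => b : Mat 1 Γ) 0 0) =
          rep (permRep ((FreeGroup.lift σ).comp ((θ' (qj N).1 (qj N).2).comp e.toMonoidHom))) b :=
        EPT_rep _ _ b
      rw [h7] at h6
      have h8 : ‖rep (permRep ((FreeGroup.lift σ).comp ((θ' (qj N).1 (qj N).2).comp e.toMonoidHom))) b v‖ ≤
          (regNorm b + ε / 4 + ε / 2) * ‖v‖ := by
        refine (pow_le_pow_iff_left₀ (norm_nonneg _) (by positivity) two_ne_zero).mp ?_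
        rw [mul_pow]
        exact h6
      refine h8.trans ?_
      exact mul_le_mul_of_nonneg_right (by linarith) (norm_nonneg _)

end Pool.Agent.QX
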