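import Pool.Agent.helper62.QX.SpecT

set_option autoImplicit false

/-!
# Project QX (MP_07c750), row BLC: block matrices
-/

open Pool.Agent.QU Pool.Agent.RP

namespace Pool.Agent.QX

section codim

variable {V W : Type} [AddCommGroup V] [Module ℂ V] [FiniteDimensional ℂ V]
  [AddCommGroup W] [Module ℂ W] [FiniteDimensional ℂ W]

theorem BLC_comap (f : V →ₗ[ℂ] W) (S : Submodule ℂ W) (k : ℕ)
    (h : Module.finrank ℂ W ≤ Module.finrank ℂ S + k) :
    Module.finrank ℂ V ≤ Module.finrank ℂ (S.comap f) + k := by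
  have h1 := LinearMap.finrank_range_add_finrank_ker (S.mkQ.comp f)
  have h2 : LinearMap.ker (S.mkQ.comp f) = S.comap f := by
    rw [LinearMap.ker_comp, Submodule.ker_mkQ]
  rw [h2] at h1
  have h3 := Submodule.finrank_le (LinearMap.range (S.mkQ.comp f))
  have h4 := Submodule.finrank_quotient_add_finrank S
  omega

theorem BLC_inf {ι : Type} (s : Finset ι) (f : ι → Submodule ℂ V) (k : ι → ℕ)
    (h : ∀ i ∈ s, Module.finrank ℂ V ≤ Module.finrank ℂ (f i) + k i) :
    Module.finrank ℂ V ≤ Module.finrank ℂ (s.inf f : Submodule ℂ V) + ∑ i ∈ s, k i := by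
  classical
  induction s using Finset.induction_on with
  | empty =>
    rw [Finset.inf_empty, Finset.sum_empty, finrank_top]
    exact le_rfl
  | insert a s ha ih =>
    rw [Finset.inf_insert, Finset.sum_insert ha]
    have h1 := ih fun i hi => h i (Finset.mem_insert_of_mem hi)
    have h2 := h a (Finset.mem_insert_self a s)
    have h3 := Submodule.finrank_sup_add_finrank_inf_eq (f a) (s.inf f)
    have h4 := Submodule.finrank_le (f a ⊔ s.inf f)
    omega

end codim

/-- the block `j` of a vector -/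
noncomputable def BLC_comp {D M : ℕ} (j : Fin D) :
    EuclideanSpace ℂ (Fin D × Fin M) →ₗ[ℂ] EuclideanSpace ℂ (Fin M) where
  toFun v := WithLp.toLp 2 (fun b => v (j, b))
  map_add' _ _ := rfl
  map_smul' _ _ := rfl

theorem BLC_norm {D M : ℕ} (v : EuclideanSpace ℂ (Fin D × Fin M)) :
    ‖v‖ ^ 2 = ∑ j, ‖BLC_comp j v‖ ^ 2 := by
  rw [EuclideanSpace.norm_sq_eq, Fintype.sum_prod_type]
  refine Finset.sum_congr rfl fun j _ => ?_
  rw [EuclideanSpace.norm_sq_eq]
  rfl

theorem BLC_mul {D M : ℕ} (A : Matrix (Fin D × Fin M) (Fin D × Fin M) ℂ)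
    (B : Fin D → Fin D → Matrix (Fin M) (Fin M) ℂ) (hAB : ∀ x y, A x y = B x.1 y.1 x.2 y.2)
    (v : EuclideanSpace ℂ (Fin D × Fin M)) (i : Fin D) :
    BLC_comp i (Matrix.toEuclideanCLM (n := Fin D × Fin M) (𝕜 := ℂ) A v) =
      ∑ j, Matrix.toEuclideanCLM (n := Fin M) (𝕜 := ℂ) (B i j) (BLC_comp j v) := by
  ext a
  have h1 : BLC_comp i (Matrix.toEuclideanCLM (n := Fin D × Fin M) (𝕜 := ℂ) A v) a =
      ∑ y, A (i, a) y * v y := rfl
  have h2 : ∀ j, Matrix.toEuclideanCLM (n := Fin M) (𝕜 := ℂ) (B i j) (BLC_comp j v) a =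
      ∑ b, B i j a b * v (j, b) := fun j => rfl
  rw [h1, Fintype.sum_prod_type, WithLp.ofLp_sum, Finset.sum_apply]
  refine Finset.sum_congr rfl fun j _ => ?_
  rw [h2]
  refine Finset.sum_congr rfl fun b _ => ?_
  rw [hAB]

theorem BLC : BLC_stmt := by
  intro D M A B t k ht hAB hC
  choose S hS1 hS2 using hC
  refine ⟨(Finset.univ : Finset (Fin D × Fin D)).inf
    (fun p => (S p.1 p.2).comap (BLC_comp p.2)), ?_, ?_⟩
  · have h1 : Module.finrank ℂ (EuclideanSpace ℂ (Fin D × Fin M)) =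
        Fintype.card (Fin D × Fin M) := finrank_euclideanSpace
    have h2 : Module.finrank ℂ (EuclideanSpace ℂ (Fin M)) = Fintype.card (Fin M) :=
      finrank_euclideanSpace
    have h3 := BLC_inf (Finset.univ : Finset (Fin D × Fin D))
      (fun p => (S p.1 p.2).comap (BLC_comp (M := M) p.2)) (fun p => k p.1 p.2) (fun p _ => by
        apply BLC_comap
        rw [h2]
        exact hS1 p.1 p.2)
    rw [h1, Fintype.sum_prod_type] at h3
    exact h3
  · intro v hv
    have hv' : ∀ i j, BLC_comp j v ∈ S i j := by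
      intro i j
      rw [Submodule.mem_finsetInf] at hv
      exact hv (i, j) (Finset.mem_univ _)
    have h1 : ∀ i, ‖BLC_comp i (Matrix.toEuclideanCLM (n := Fin D × Fin M) (𝕜 := ℂ) A v)‖ ^ 2 ≤
        D * (t ^ 2 * ‖v‖ ^ 2) := by
      intro i
      rw [BLC_mul A B hAB v i]
      have h2 : ‖∑ j, Matrix.toEuclideanCLM (n := Fin M) (𝕜 := ℂ) (B i j) (BLC_comp j v)‖ ≤
          ∑ j, t * ‖BLC_comp j v‖ :=
        (norm_sum_le _ _).trans (Finset.sum_le_sum fun j _ => hS2 i j _ (hv' i j))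
      have h3 : (∑ j, t * ‖BLC_comp j v‖) ^ 2 ≤ D * ∑ j, (t * ‖BLC_comp j v‖) ^ 2 := by
        have h4 := sq_sum_le_card_mul_sum_sq (s := (Finset.univ : Finset (Fin D)))
          (f := fun j => t * ‖BLC_comp j v‖)
        rwa [Finset.card_univ, Fintype.card_fin] at h4
      have h5 : ∑ j, (t * ‖BLC_comp j v‖) ^ 2 = t ^ 2 * ‖v‖ ^ 2 := by
        rw [BLC_norm v, Finset.mul_sum]
        exact Finset.sum_congr rfl fun j _ => by rw [mul_pow]
      rw [h5] at h3
      exact (pow_le_pow_left₀ (norm_nonneg _) h2 2).trans h3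
    have h6 : ‖Matrix.toEuclideanCLM (n := Fin D × Fin M) (𝕜 := ℂ) A v‖ ^ 2 ≤
        (D * t * ‖v‖) ^ 2 := by
      rw [BLC_norm]
      refine (Finset.sum_le_sum fun i _ => h1 i).trans ?_
      rw [Finset.sum_const, Finset.card_univ, Fintype.card_fin, nsmul_eq_mul]
      apply le_of_eq
      ring
    have h7 : 0 ≤ D * t * ‖v‖ := mul_nonneg (mul_nonneg (Nat.cast_nonneg _) ht) (norm_nonneg _)
    exact le_of_sq_le_sq h6 h7

end Pool.Agent.QX
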