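import Pool.Agent.helper62.QX.SpecT
import Pool.Agent.helper72.QX.MRC

set_option autoImplicit false

/-!
# Project QX (MP_07c750), row SPV: spectral theorem and codimensions
-/

open Polynomial
open Pool.Agent.QU Pool.Agent.RP

namespace Pool.Agent.QX

section

variable {n : Type} [Fintype n] [DecidableEq n]

/-- span of some of the eigenvectors -/
noncomputable def SPV_E {A : Matrix n n ℂ} (hA : A.IsHermitian) (s : Finset n) :
    Submodule ℂ (EuclideanSpace ℂ n) :=
  Submodule.span ℂ (Set.range (fun i : s => hA.eigenvectorBasis i))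

theorem SPV_finrank {A : Matrix n n ℂ} (hA : A.IsHermitian) (s : Finset n) :
    Module.finrank ℂ (SPV_E hA s) = s.card := by
  unfold SPV_E
  rw [finrank_span_eq_card, Fintype.card_coe]
  have h1 := hA.eigenvectorBasis.toBasis.linearIndependent.comp (fun i : s => (i : n))
    Subtype.val_injective
  have h2 : (hA.eigenvectorBasis.toBasis ∘ fun i : s => (i : n)) =
      fun i : s => hA.eigenvectorBasis i := by
    funext i
    simp
  rwa [h2] at h1

theorem SPV_orth {A : Matrix n n ℂ} (hA : A.IsHermitian) (s : Finset n)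
    (v : EuclideanSpace ℂ n) (hv : v ∈ SPV_E hA s) (j : n) (hj : j ∉ s) :
    inner ℂ (hA.eigenvectorBasis j) v = 0 := by
  unfold SPV_E at hv
  induction hv using Submodule.span_induction with
  | mem x hx =>
    obtain ⟨i, rfl⟩ := hx
    have hne : j ≠ (i : n) := fun h => hj (h ▸ i.2)
    exact hA.eigenvectorBasis.orthonormal.2 hne
  | zero => exact inner_zero_right _
  | add x y _ _ hx hy => rw [inner_add_right, hx, hy, add_zero]
  | smul c x _ hx => rw [inner_smul_right, hx, mul_zero]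

theorem SPV_inner {A : Matrix n n ℂ} (hA : A.IsHermitian) (p : ℕ) (v : EuclideanSpace ℂ n)
    (i : n) : inner ℂ (hA.eigenvectorBasis i)
      (Matrix.toEuclideanCLM (n := n) (𝕜 := ℂ) (A ^ p) v) =
      ((hA.eigenvalues i ^ p : ℝ) : ℂ) * inner ℂ (hA.eigenvectorBasis i) v := by
  have hsym : (Matrix.toEuclideanLin A).IsSymmetric := Matrix.isSymmetric_toEuclideanLin_iff.mpr hA
  have h2 : ∀ v, inner ℂ (hA.eigenvectorBasis i) (Matrix.toEuclideanCLM (n := n) (𝕜 := ℂ) A v) =
      ((hA.eigenvalues i : ℝ) : ℂ) * inner ℂ (hA.eigenvectorBasis i) v := by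
    intro v
    have h3 := hsym (hA.eigenvectorBasis i) v
    have h4 : Matrix.toEuclideanLin A (hA.eigenvectorBasis i) =
        ((hA.eigenvalues i : ℝ) : ℂ) • hA.eigenvectorBasis i := MRC_apply A hA i
    rw [h4, inner_smul_left, Complex.conj_ofReal] at h3
    exact h3.symm
  induction p generalizing v with
  | zero => simp
  | succ p ih =>
    have h5 : Matrix.toEuclideanCLM (n := n) (𝕜 := ℂ) (A ^ (p + 1)) v =
        Matrix.toEuclideanCLM (n := n) (𝕜 := ℂ) (A ^ p)
          (Matrix.toEuclideanCLM (n := n) (𝕜 := ℂ) A v) := by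
      rw [pow_succ, map_mul]
      rfl
    rw [h5, ih, h2, ← mul_assoc, pow_succ]
    push_cast
    ring

theorem SPV_normsq {A : Matrix n n ℂ} (hA : A.IsHermitian) (p : ℕ) (v : EuclideanSpace ℂ n) :
    ‖Matrix.toEuclideanCLM (n := n) (𝕜 := ℂ) (A ^ p) v‖ ^ 2 =
      ∑ i, (|hA.eigenvalues i| ^ p) ^ 2 * ‖inner ℂ (hA.eigenvectorBasis i) v‖ ^ 2 := by
  rw [← hA.eigenvectorBasis.sum_sq_norm_inner_right]
  refine Finset.sum_congr rfl fun i _ => ?_
  rw [SPV_inner, norm_mul, mul_pow, Complex.norm_real, Real.norm_eq_abs, abs_pow]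

end

theorem SPV : SPV_stmt := by
  intro n _ _ A hA
  obtain ⟨h1, h2, h3⟩ : (∀ i, |hA.eigenvalues i| ≤ ‖Matrix.toEuclideanCLM (n := n) (𝕜 := ℂ) A‖) ∧
      (∀ h : ℝ[X], Matrix.trace (aeval A h) = ((∑ i, h.eval (hA.eigenvalues i) : ℝ) : ℂ)) ∧
      ∀ m : ℝ, 0 ≤ m → (∀ i, |hA.eigenvalues i| ≤ m) →
        ‖Matrix.toEuclideanCLM (n := n) (𝕜 := ℂ) A‖ ≤ m := by
    refine ⟨?_, MRC_trace A hA, ?_⟩
    · intro i
      have h1 := (Matrix.toEuclideanCLM (n := n) (𝕜 := ℂ) A).le_opNorm (hA.eigenvectorBasis i)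
      rw [MRC_apply, norm_smul, OrthonormalBasis.norm_eq_one, mul_one, mul_one, Complex.norm_real,
        Real.norm_eq_abs] at h1
      exact h1
    · intro m hm hev
      apply ContinuousLinearMap.opNorm_le_bound _ hm
      intro v
      have h5 : ‖Matrix.toEuclideanCLM (n := n) (𝕜 := ℂ) A v‖ ^ 2 ≤ (m * ‖v‖) ^ 2 := by
        have h6 := SPV_normsq hA 1 v
        rw [pow_one] at h6
        rw [h6, mul_pow, ← hA.eigenvectorBasis.sum_sq_norm_inner_right v, Finset.mul_sum]
        apply Finset.sum_le_sum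
        intro i _
        rw [pow_one]
        exact mul_le_mul_of_nonneg_right (pow_le_pow_left₀ (abs_nonneg _) (hev i) 2) (sq_nonneg _)
      exact le_of_sq_le_sq h5 (mul_nonneg hm (norm_nonneg _))
  refine ⟨hA.eigenvalues, h1, h2, h3, ?_, ?_⟩
  · intro t ht
    refine ⟨SPV_E hA (Finset.univ.filter (fun i => ¬ t < |hA.eigenvalues i|)), ?_, ?_⟩
    · rw [SPV_finrank, add_comm, Finset.card_filter_add_card_filter_not, Finset.card_univ]
    · intro v hv
      have h5 : ‖Matrix.toEuclideanCLM (n := n) (𝕜 := ℂ) A v‖ ^ 2 ≤ (t * ‖v‖) ^ 2 := by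
        have h6 := SPV_normsq hA 1 v
        rw [pow_one] at h6
        rw [h6, mul_pow, ← hA.eigenvectorBasis.sum_sq_norm_inner_right v, Finset.mul_sum]
        apply Finset.sum_le_sum
        intro i _
        rw [pow_one]
        by_cases hi : t < |hA.eigenvalues i|
        · have h7 := SPV_orth hA _ v hv i (by simp [hi])
          rw [h7]
          simp
        · exact mul_le_mul_of_nonneg_right
            (pow_le_pow_left₀ (abs_nonneg _) (not_lt.1 hi) 2) (sq_nonneg _)
      exact le_of_sq_le_sq h5 (mul_nonneg ht (norm_nonneg _))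
  · intro t p k ht hp hC
    obtain ⟨S, hS1, hS2⟩ := hC
    by_contra hk
    push Not at hk
    set s := Finset.univ.filter (fun i => t < |hA.eigenvalues i|) with hs
    have h4 := Submodule.finrank_sup_add_finrank_inf_eq S (SPV_E hA s)
    have h5 := Submodule.finrank_le (S ⊔ SPV_E hA s)
    have h6 : Module.finrank ℂ (EuclideanSpace ℂ n) = Fintype.card n := finrank_euclideanSpace
    rw [SPV_finrank] at h4
    have h7 : 0 < Module.finrank ℂ (S ⊓ SPV_E hA s : Submodule ℂ (EuclideanSpace ℂ n)) := by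
      omega
    have h8 : (S ⊓ SPV_E hA s : Submodule ℂ (EuclideanSpace ℂ n)) ≠ ⊥ := by
      intro h
      rw [h, finrank_bot] at h7
      exact lt_irrefl _ h7
    obtain ⟨v, hv, hv0⟩ := Submodule.exists_mem_ne_zero_of_ne_bot h8
    have h9 := hS2 v hv.1
    have h10 : (t ^ p * ‖v‖) ^ 2 < ‖Matrix.toEuclideanCLM (n := n) (𝕜 := ℂ) (A ^ p) v‖ ^ 2 := by
      rw [SPV_normsq hA p v, mul_pow, ← hA.eigenvectorBasis.sum_sq_norm_inner_right v,
        Finset.mul_sum]
      have h11 : ∀ i ∈ (Finset.univ : Finset n),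
          (t ^ p) ^ 2 * ‖inner ℂ (hA.eigenvectorBasis i) v‖ ^ 2 ≤
          (|hA.eigenvalues i| ^ p) ^ 2 * ‖inner ℂ (hA.eigenvectorBasis i) v‖ ^ 2 := by
        intro i _
        by_cases hi : t < |hA.eigenvalues i|
        · exact mul_le_mul_of_nonneg_right
            (pow_le_pow_left₀ (pow_nonneg ht _) (pow_le_pow_left₀ ht hi.le p) 2) (sq_nonneg _)
        · have h12 := SPV_orth hA s v hv.2 i (by simp [hs, hi])
          rw [h12]
          simp
      apply Finset.sum_lt_sum h11
      have h13 : ∃ i, inner ℂ (hA.eigenvectorBasis i) v ≠ 0 := by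
        by_contra h14
        push Not at h14
        apply hv0
        have h15 := hA.eigenvectorBasis.sum_sq_norm_inner_right v
        rw [Finset.sum_congr rfl (fun i _ => by rw [h14 i, norm_zero, zero_pow two_ne_zero]),
          Finset.sum_const_zero] at h15
        exact norm_eq_zero.1 (pow_eq_zero_iff two_ne_zero |>.1 h15.symm)
      obtain ⟨i, hi⟩ := h13
      refine ⟨i, Finset.mem_univ _, ?_⟩
      have hi2 : t < |hA.eigenvalues i| := by
        by_contra h16
        exact hi (SPV_orth hA s v hv.2 i (by simp [hs, h16]))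
      apply mul_lt_mul_of_pos_right _ (by positivity)
      exact pow_lt_pow_left₀ (pow_lt_pow_left₀ hi2 ht (by omega)) (pow_nonneg ht _) two_ne_zero
    have h17 := pow_le_pow_left₀ (norm_nonneg _) h9 2
    linarith

end Pool.Agent.QX
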